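import Pool.Agent.helper60.DB.SpecI
import Pool.Agent.helper60.DK.First

/-!
# Row bi:LS (MP_fb2c2a_nt)
-/

set_option autoImplicit false

namespace Pool.Agent.helper60.DB

open Polynomial Finset Pool.Agent.helper60.DK

/-- Row LS. -/
theorem LS (hST : DA.ST_stmt) : LS_stmt := by
  intro p _ h5
  obtain ⟨Z, hZ⟩ := hST p h5
  obtain ⟨Q, hQ, _⟩ := exists_Q (p := p) h5
  refine ⟨Q - Lop Z, ?_⟩
  have h1 : DA.St p = Sz p - C ((p : ℤ) ^ 2) * Z := by
    rw [hZ]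
    ring
  rw [h1, Lop_sub, Lop_C_mul, hQ]
  ring

end Pool.Agent.helper60.DB
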